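import Mathlib

/-!
# MP_dd3b7d_gt: the Cantor space is not co-consonant, but its Smyth powerspace is
-/

open Set TopologicalSpace
open scoped Topology

namespace Pool.Agent.Results.MP_dd3b7d_gt.SmythConverseFails

/-- `U` is Scott open: an upper set such that every directed set whose supremum exists and lies
in `U` meets `U`. -/
def ScottOpen {P : Type*} [PartialOrder P] (U : Set P) : Prop :=
  (∀ x ∈ U, ∀ y, x ≤ y → y ∈ U) ∧
    ∀ D : Set P, D.Nonempty → DirectedOn (· ≤ ·) D → ∀ s, IsLUB D s → s ∈ U → ∃ d ∈ D, d ∈ U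

/-- The upper topology of a poset, generated by the complements of the principal ideals. -/
@[reducible] def upperTop (P : Type*) [PartialOrder P] : TopologicalSpace P :=
  generateFrom {s | ∃ a : P, s = {x | ¬ x ≤ a}}

/-- `X` is co-consonant: on the lattice of open sets of `X` the Scott topology and the upper
topology have the same open sets. -/
def CoConsonant (X : Type*) [TopologicalSpace X] : Prop :=
  ∀ F : Set (Opens X), ScottOpen F ↔ IsOpen[upperTop (Opens X)] F

/-- The points of the Smyth powerspace: nonempty compact saturated sets, saturated meaning equal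
to the intersection of all open sets containing it. -/
def Smyth (X : Type*) [TopologicalSpace X] : Type _ :=
  {K : Set X // K.Nonempty ∧ IsCompact K ∧ K = ⋂₀ {U : Set X | IsOpen U ∧ K ⊆ U}}

/-- The upper Vietoris topology. -/
instance smythTopology (X : Type*) [TopologicalSpace X] : TopologicalSpace (Smyth X) :=
  generateFrom {B | ∃ U : Set X, IsOpen U ∧ B = {K : Smyth X | K.1 ⊆ U}}

/-! ### General facts -/

lemma scott_of_upper {P : Type*} [PartialOrder P] {F : Set P} (h : IsOpen[upperTop P] F) :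
    ScottOpen F := by
  induction h with
  | basic s hs =>
    obtain ⟨a, rfl⟩ := hs
    refine ⟨fun x hx y hxy hy => hx (hxy.trans hy), fun D _ _ s hs hsa => ?_⟩
    by_contra hcon
    push Not at hcon
    exact hsa (hs.2 fun d hd => by
      by_contra hda
      exact hcon d hd hda)
  | univ =>
    exact ⟨fun _ _ _ _ => trivial, fun D hD _ s _ _ => ⟨hD.some, hD.some_mem, trivial⟩⟩
  | inter s t _ _ ihs iht =>
    refine ⟨fun x hx y hxy => ⟨ihs.1 x hx.1 y hxy, iht.1 x hx.2 y hxy⟩, ?_⟩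
    intro D hD hdir a ha has
    obtain ⟨d1, hd1, h1⟩ := ihs.2 D hD hdir a ha has.1
    obtain ⟨d2, hd2, h2⟩ := iht.2 D hD hdir a ha has.2
    obtain ⟨d3, hd3, h13, h23⟩ := hdir d1 hd1 d2 hd2
    exact ⟨d3, hd3, ihs.1 _ h1 _ h13, iht.1 _ h2 _ h23⟩
  | sUnion S _ ih =>
    refine ⟨fun x hx y hxy => ?_, ?_⟩
    · obtain ⟨t, ht, hxt⟩ := hx
      exact ⟨t, ht, (ih t ht).1 x hxt y hxy⟩
    · intro D hD hdir a ha has
      obtain ⟨t, ht, hat⟩ := has
      obtain ⟨d, hd, hdt⟩ := (ih t ht).2 D hD hdir a ha hat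
      exact ⟨d, hd, t, ht, hdt⟩

/-- Finitely generated families. -/
def FinGen {X : Type*} [TopologicalSpace X] (F : Set (Opens X)) : Prop :=
  ∀ U ∈ F, ∃ S : Set X, S.Finite ∧ S ⊆ (U : Set X) ∧ ∀ W : Opens X, S ⊆ (W : Set X) → W ∈ F

lemma finGen_of_upper {X : Type*} [TopologicalSpace X] {F : Set (Opens X)}
    (h : IsOpen[upperTop (Opens X)] F) : FinGen F := by
  induction h with
  | basic s hs =>
    obtain ⟨a, rfl⟩ := hs
    intro U hU
    have hU' : ¬ ((U : Set X) ⊆ (a : Set X)) := hU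
    obtain ⟨p, hp1, hp2⟩ := not_subset.1 hU'
    refine ⟨{p}, finite_singleton p, by simpa using hp1, fun W hW hWa => ?_⟩
    exact hp2 (hWa (hW (mem_singleton p)))
  | univ => exact fun U _ => ⟨∅, finite_empty, empty_subset _, fun _ _ => trivial⟩
  | inter s t _ _ ihs iht =>
    intro U hU
    obtain ⟨S, hS, hSU, hSW⟩ := ihs U hU.1
    obtain ⟨T, hT, hTU, hTW⟩ := iht U hU.2
    exact ⟨S ∪ T, hS.union hT, union_subset hSU hTU, fun W hW =>
      ⟨hSW W (subset_union_left.trans hW), hTW W (subset_union_right.trans hW)⟩⟩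
  | sUnion S _ ih =>
    intro U hU
    obtain ⟨t, ht, hUt⟩ := hU
    obtain ⟨T, hT, hTU, hTW⟩ := ih t ht U hUt
    exact ⟨T, hT, hTU, fun W hW => ⟨t, ht, hTW W hW⟩⟩

lemma upper_of_finGen {X : Type*} [TopologicalSpace X] {F : Set (Opens X)}
    (h : FinGen F) : IsOpen[upperTop (Opens X)] F := by
  let _ : TopologicalSpace (Opens X) := upperTop (Opens X)
  change IsOpen F
  rw [isOpen_iff_forall_mem_open]
  intro U hU
  obtain ⟨S, hS, hSU, hSW⟩ := h U hU
  refine ⟨⋂ p ∈ S, {W : Opens X | p ∈ W}, ?_, ?_, ?_⟩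
  · intro W hW
    refine hSW W fun p hp => ?_
    have := mem_iInter₂.1 hW p hp
    exact this
  · refine hS.isOpen_biInter fun p _ => ?_
    refine isOpen_generateFrom_of_mem ⟨⟨(closure {p})ᶜ, isClosed_closure.isOpen_compl⟩, ?_⟩
    ext W
    constructor
    · intro hp hle
      exact hle hp (subset_closure (mem_singleton p))
    · intro hnot
      by_contra hp
      refine hnot fun q hq hqp => ?_
      have h1 : W ∈ ({W | p ∈ W} : Set (Opens X)) := by
        obtain ⟨r, hr1, hr2⟩ := mem_closure_iff.1 hqp W W.2 hq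
        rw [mem_singleton_iff] at hr2
        subst hr2
        exact hr1
      exact hp h1
  · exact mem_iInter₂.2 fun p hp => hSU hp

lemma coConsonant_iff {X : Type*} [TopologicalSpace X] :
    CoConsonant X ↔ ∀ F : Set (Opens X), ScottOpen F → FinGen F :=
  ⟨fun h F hF => finGen_of_upper ((h F).1 hF), fun h F =>
    ⟨fun hF => upper_of_finGen (h F hF), scott_of_upper⟩⟩

lemma smyth_basis {X : Type*} [TopologicalSpace X] {V : Set (Smyth X)} (hV : IsOpen V) :
    ∀ K ∈ V, ∃ U : Set X, IsOpen U ∧ K.1 ⊆ U ∧ ∀ K' : Smyth X, K'.1 ⊆ U → K' ∈ V := by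
  induction hV with
  | basic s hs =>
    obtain ⟨U, hU, rfl⟩ := hs
    exact fun K hK => ⟨U, hU, hK, fun K' h => h⟩
  | univ => exact fun K _ => ⟨univ, isOpen_univ, subset_univ _, fun _ _ => trivial⟩
  | inter s t _ _ ihs iht =>
    intro K hK
    obtain ⟨U, hU, hKU, h1⟩ := ihs K hK.1
    obtain ⟨U', hU', hKU', h2⟩ := iht K hK.2
    exact ⟨U ∩ U', hU.inter hU', subset_inter hKU hKU', fun K' h =>
      ⟨h1 K' (h.trans inter_subset_left), h2 K' (h.trans inter_subset_right)⟩⟩
  | sUnion S _ ih =>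
    intro K hK
    obtain ⟨t, ht, hKt⟩ := hK
    obtain ⟨U, hU, hKU, h1⟩ := ih t ht K hKt
    exact ⟨U, hU, hKU, fun K' h => ⟨t, ht, h1 K' h⟩⟩

/-- `box U` as an open subset of the Smyth powerspace. -/
def bx {X : Type*} [TopologicalSpace X] (U : Set X) (hU : IsOpen U) : Opens (Smyth X) :=
  ⟨{K | K.1 ⊆ U}, isOpen_generateFrom_of_mem ⟨U, hU, rfl⟩⟩


/-! ### The Cantor space -/

/-- The Cantor space. -/
abbrev C : Type := ℕ → Bool

lemma cantor_not : ¬ CoConsonant C := by
  rw [coConsonant_iff]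
  intro h
  have hF : ScottOpen ({⊤} : Set (Opens C)) := by
    refine ⟨fun x hx y hxy => ?_, ?_⟩
    · rw [mem_singleton_iff] at hx ⊢
      rw [hx] at hxy
      exact top_le_iff.1 hxy
    · intro D hD hdir s hs hsT
      rw [mem_singleton_iff] at hsT
      have hs' : s = sSup D := hs.unique (isLUB_sSup D)
      have : Nonempty D := hD.to_subtype
      obtain ⟨d, hd⟩ := isCompact_univ.elim_directed_cover (fun d : D => (d.1 : Set C))
        (fun d => d.1.2) (by
          intro z _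
          have hz : z ∈ sSup D := by
            rw [← hs', hsT]
            trivial
          obtain ⟨d, hd, hzd⟩ := Opens.mem_sSup.1 hz
          exact mem_iUnion.2 ⟨⟨d, hd⟩, hzd⟩)
        (by
          rintro ⟨a, ha⟩ ⟨c, hc⟩
          obtain ⟨e, he, h1, h2⟩ := hdir a ha c hc
          exact ⟨⟨e, he⟩, h1, h2⟩)
      refine ⟨d.1, d.2, ?_⟩
      rw [mem_singleton_iff, eq_top_iff]
      exact hd
  obtain ⟨S, hS, -, hSW⟩ := h _ hF ⊤ rfl
  obtain ⟨p, hp⟩ := hS.exists_notMem
  have h1 := hSW ⟨{p}ᶜ, isOpen_compl_singleton⟩ (fun q hq hqp => hp (by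
    rw [mem_singleton_iff] at hqp
    rwa [← hqp]))
  rw [mem_singleton_iff] at h1
  have h2 : p ∈ (⊤ : Opens C) := trivial
  rw [← h1] at h2
  exact h2 rfl

lemma smyth_cantor : CoConsonant (Smyth C) := by
  rw [coConsonant_iff]
  intro F hF U hU
  -- finite unions of boxes of clopen sets
  let u : Finset (Clopens C) → Opens (Smyth C) := fun T =>
    T.sup fun c => bx (c : Set C) c.isClopen.isOpen
  have hu : ∀ (T : Finset (Clopens C)) (K : Smyth C), K ∈ u T ↔ ∃ c ∈ T, K.1 ⊆ (c : Set C) := by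
    intro T K
    simp only [u, Finset.sup_eq_iSup, Opens.mem_iSup, exists_prop]
    exact Iff.rfl
  let D : Set (Opens (Smyth C)) := {W | W ≤ U ∧ ∃ T, W = u T}
  obtain ⟨d, ⟨hdU, T, rfl⟩, hd⟩ := hF.2 D ⟨u ∅, by simp [u], ∅, rfl⟩ (by
      classical
      rintro _ ⟨h1, T1, rfl⟩ _ ⟨h2, T2, rfl⟩
      refine ⟨u (T1 ∪ T2), ⟨?_, _, rfl⟩, ?_, ?_⟩
      · intro K hK
        obtain ⟨c, hc, hKc⟩ := (hu _ _).1 hK
        rcases Finset.mem_union.1 hc with h | h
        · exact h1 ((hu _ _).2 ⟨c, h, hKc⟩)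
        · exact h2 ((hu _ _).2 ⟨c, h, hKc⟩)
      · intro K hK
        obtain ⟨c, hc, hKc⟩ := (hu _ _).1 hK
        exact (hu _ _).2 ⟨c, Finset.mem_union_left _ hc, hKc⟩
      · intro K hK
        obtain ⟨c, hc, hKc⟩ := (hu _ _).1 hK
        exact (hu _ _).2 ⟨c, Finset.mem_union_right _ hc, hKc⟩)
    (sSup D) (isLUB_sSup D) (by
      refine hF.1 U hU _ fun K hK => ?_
      obtain ⟨O, hO, hKO, hO2⟩ := smyth_basis U.2 K hK
      obtain ⟨c, hc, hKc, hcO⟩ := exists_clopen_of_closed_subset_open K.2.2.1.isClosed hO hKO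
      refine Opens.mem_sSup.2 ⟨u {⟨c, hc⟩}, ⟨?_, _, rfl⟩, ?_⟩
      · intro K' hK'
        obtain ⟨c', hc', hKc'⟩ := (hu _ _).1 hK'
        rw [Finset.mem_singleton] at hc'
        subst hc'
        exact hO2 K' (Subset.trans hKc' hcO)
      · exact (hu _ _).2 ⟨_, Finset.mem_singleton_self _, hKc⟩)
  -- the clopen sets themselves are points of the powerspace
  let pt : Clopens C → Set (Smyth C) := fun c => {K | K.1 = (c : Set C)}
  refine ⟨⋃ c ∈ T, pt c, ?_, ?_, ?_⟩
  · refine T.finite_toSet.biUnion fun c _ => ?_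
    refine Set.Subsingleton.finite fun K hK K' hK' => Subtype.ext ?_
    have h1 : K.1 = (c : Set C) := hK
    have h2 : K'.1 = (c : Set C) := hK'
    rw [h1, h2]
  · intro K hK
    obtain ⟨c, hc, hKc⟩ := mem_iUnion₂.1 hK
    have h1 : K.1 = (c : Set C) := hKc
    exact hdU ((hu _ _).2 ⟨c, hc, h1.subset⟩)
  · intro W hW
    refine hF.1 _ hd W fun K hK => ?_
    obtain ⟨c, hc, hKc⟩ := (hu _ _).1 hK
    let P : Smyth C := ⟨c, K.2.1.mono hKc, c.isClopen.isClosed.isCompact, by
      apply Subset.antisymm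
      · exact subset_sInter fun V hV => hV.2
      · exact sInter_subset_of_mem ⟨c.isClopen.isOpen, Subset.rfl⟩⟩
    have hP : P ∈ W := hW (mem_iUnion₂.2 ⟨c, hc, rfl⟩)
    obtain ⟨O, hO, hPO, hO2⟩ := smyth_basis W.2 P hP
    exact hO2 K (Subset.trans hKc hPO)

/-- There is a T0 space that is not co-consonant although its Smyth powerspace is. -/
theorem result : ∃ (X : Type) (_ : TopologicalSpace X),
    T0Space X ∧ ¬ CoConsonant X ∧ CoConsonant (Smyth X) :=
  ⟨C, inferInstance, inferInstance, cantor_not, smyth_cantor⟩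

end Pool.Agent.Results.MP_dd3b7d_gt.SmythConverseFails
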